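import Pool.Agent.W937.FG.Stm

/-! Budget programs accept primitive recursive predicates. -/

set_option autoImplicit false

namespace Pool.Agent.W74.FG.C4

open Function Pool.Agent.W937.FG

lemma seq_inv {p q : Prog Empty ℕ} {c f : ℕ × (ℕ → ℕ)} (h : MExec (.seq p q) c f) :
    ∃ d, MExec p c d ∧ MExec q d f := by
  cases h with
  | seq h1 h2 => exact ⟨_, h1, h2⟩

lemma dec_inv {i x : ℕ} {s : ℕ → ℕ} {d : ℕ × (ℕ → ℕ)} (h : MExec (.op (.dec i)) (x, s) d) :
    0 < s i ∧ d = (x + 1, update s i (s i - 1)) := by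
  cases h with
  | dec _ _ _ h => exact ⟨h, rfl⟩

lemma zero_inv {i x : ℕ} {s : ℕ → ℕ} {d : ℕ × (ℕ → ℕ)} (h : MExec (.op (.zero i)) (x, s) d) :
    s i = 0 ∧ d = (x, s) := by
  cases h with
  | zero _ _ _ h => exact ⟨h, rfl⟩

lemma ofFn_one (m : ℕ) : (List.Vector.ofFn fun _ : Fin 1 => m) = m ::ᵥ List.Vector.nil := by
  rfl

lemma vec_one (v : List.Vector ℕ 1) : v.head ::ᵥ List.Vector.nil = v := by
  conv_rhs => rw [← List.Vector.cons_head_tail v]
  exact congrArg _ (List.Vector.eq_nil (v.tail : List.Vector ℕ 0)).symm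

theorem main (h0 : PropC0) (hC : PropC) : PropC4 := by
  intro f hf
  have hf' : Nat.Primrec' (fun v : List.Vector ℕ 1 => f v.head) :=
    Nat.Primrec'.prim_iff₁.2 (Primrec.nat_iff.2 hf)
  obtain ⟨-, b1, hb1, hM⟩ := hC 1 _ hf'
  obtain ⟨M1, hM1⟩ := hM (fun _ => 0) 1 (fun _ => Nat.zero_lt_one)
  have hs : ∀ m : ℕ, ∀ j, 1 ≤ j → update (fun _ => 0) 0 m j = (0 : ℕ) := by
    intro m j hj
    rw [update_of_ne (by omega)]
  have key : ∀ m x : ℕ,
      (∀ (x' : ℕ) (s' : ℕ → ℕ), MExec M1 (x, update (fun _ => 0) 0 m) (x', s') →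
          s' = update (update (fun _ => 0) 0 m) 1 (f m) ∧ x = x' + f m) ∧
        (b1 (m ::ᵥ List.Vector.nil) ≤ x →
          ∃ x', MExec M1 (x, update (fun _ => 0) 0 m)
            (x', update (update (fun _ => 0) 0 m) 1 (f m))) := by
    intro m x
    have := hM1 x (update (fun _ => 0) 0 m) (hs m)
    simpa [ofFn_one] using this
  refine ⟨.seq M1 (.seq (.op (.dec 1)) (.seq (.op (.zero 1)) (clearP 0))),
    fun m => b1 (m ::ᵥ List.Vector.nil), ?_, ?_, ?_⟩
  · rw [← Primrec.nat_iff, ← Nat.Primrec'.prim_iff₁]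
    have : (fun v : List.Vector ℕ 1 => b1 (v.head ::ᵥ List.Vector.nil)) = b1 := by
      funext v
      rw [vec_one]
    rw [this]
    exact hb1
  · intro m x x' h
    obtain ⟨⟨x1, s1⟩, h1, h⟩ := seq_inv h
    obtain ⟨d2, h2, h⟩ := seq_inv h
    obtain ⟨d3, h3, -⟩ := seq_inv h
    obtain ⟨hs1, -⟩ := (key m x).1 x1 s1 h1
    obtain ⟨hpos, hd2⟩ := dec_inv h2
    subst hd2
    obtain ⟨hz, -⟩ := zero_inv h3
    subst hs1
    rw [update_self] at hz hpos
    rw [update_self] at hz
    omega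
  · intro m x hfm hx
    obtain ⟨x1, h1⟩ := (key m x).2 hx
    obtain ⟨-, hx1⟩ := (key m x).1 _ _ h1
    rw [hfm] at h1 hx1
    refine .seq h1 (.seq (.dec 1 x1 _ ?_) ?_)
    · rw [update_self]
      exact Nat.zero_lt_one
    · have e : update (update (update (fun _ => 0) 0 m) 1 1) 1
          (update (update (fun _ => 0) 0 m) 1 1 1 - 1) = update (fun _ => (0 : ℕ)) 0 m := by
        rw [update_self, update_idem]
        funext j
        by_cases hj : j = 1
        · subst hj
          rw [update_self, hs m 1 le_rfl]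
        · rw [update_of_ne hj]
      rw [e, ← hx1]
      refine .seq (.zero 1 x _ (hs m 1 le_rfl)) ?_
      rw [h0.1]
      refine ⟨?_, ?_⟩
      · rw [update_idem]
        funext j
        by_cases hj : j = 0
        · subst hj; rw [update_self]
        · rw [update_of_ne hj]
      · rw [update_self]

end Pool.Agent.W74.FG.C4
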